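import Pool.Agent.H849.SF.Main

/-!
# MP_f8720a_ag: a strong form of Kato's log monodromy-weight conjecture, and independence of `ℓ`

Let `X` be a projective SNCL scheme of relative dimension `n` over the log point of a finite field with
`q` elements and `Y^(a+1)` the disjoint union of the `(a+1)`-fold intersections of its smooth components.
`X ℓ : SemistableModel (Ω ℓ) Γ n q` is its cohomology in the theory `ℓ ∈ ι` (log `ℓ`-adic cohomology, for
the primes `ℓ` not dividing `q`; the log crystalline cohomology may be included): the cohomology of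
the strata, `H^i`, the weight filtration `W` (called `P` by Kato), `N`, and the weight spectral
sequence. No lifting of `X` to characteristic zero is assumed.

On the total `E_1` term act `N`, its companion `N'` (multiplications by rational numbers), the Lefschetz
operator `L`, the dual Lefschetz operator `Λ` of the strata and `d_1`. Let `δ = [N', [Λ, d_1]]` and
`Δ = d_1 δ + δ d_1`. The *strong form* says that `d_1` vanishes on the null component of `Δ`.

We assume the standard conjecture of Lefschetz type for the strata: `Λ` is given by an algebraic cycle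
independent of the theory (known for curves, surfaces, abelian varieties, complete intersections,
and their products, for example). Then `Δ` is an algebraic correspondence.
-/

set_option autoImplicit false

universe u v

namespace Pool.Agent.Results.MP_f8720a_ag.StrongForm

open Pool.Agent.Y143 Pool.Agent.H849.SF

/-- The numbers `B i w` are bounds for the dimensions of the graded pieces `gr_w H^i`, and the
multiplicity `m` of the eigenvalue `0` of `Δ` is a bound for the sum of the Betti numbers; equality
holds for all `i`, `w`, or for the sum, if and only if the strong form holds. -/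
def HasBounds {Ω : Type u} [Field Ω] [CharZero Ω] {Γ : Type} {n q : ℕ}
    (X : SemistableModel.{u, v} Ω Γ n q) (lam : ∀ a, Module.End Ω (X.H a)) (B : ℕ → ℤ → ℕ)
    (m : ℕ) : Prop :=
  ((∀ i w, gradedDim X i w ≤ B i w) ∧
      ((∀ i w, gradedDim X i w = B i w) ↔ StrongForm X.toStrataData lam)) ∧
    (laplace X.toStrataData lam).charpoly.rootMultiplicity 0 = m ∧
      bettiSum X ≤ m ∧ (bettiSum X = m ↔ StrongForm X.toStrataData lam)

/-- **The strong form of Kato's conjecture.** Suppose that the strata satisfy the standard conjecture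
of Lefschetz type.

(1) There are numbers `B i w` and `m`, independent of `ℓ`, such that `dim gr_w H^i ≤ B i w` and
`∑ dim H^i ≤ m` for all `ℓ`, and for every `ℓ` equality (for all `i` and `w`, or in the second
inequality) is equivalent to the strong form for `ℓ`.

(2) The strong form for `ℓ` implies Kato's conjecture for all `H^i`, and the hard Lefschetz theorem.

(3) Conversely, Kato's conjecture for all `H^i` and the hard Lefschetz theorem imply the strong form if
no three components of `X` meet, and more generally if the part of the `E_1` term to which the triple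
points contribute splits off and satisfies the strong form.

(4) In the situation of (3), if the hard Lefschetz theorem and the sum of the Betti numbers are the
same for `ℓ` and `ℓ'` (as for the reduction of a variety in characteristic zero), Kato's
conjecture for `ℓ` is equivalent to Kato's conjecture for `ℓ'`. -/
theorem result {ι : Type} {Ω : ι → Type u} [∀ ℓ, Field (Ω ℓ)] [∀ ℓ, CharZero (Ω ℓ)]
    [∀ ℓ, IsAlgClosed (Ω ℓ)] {Γ : Type} {n q : ℕ} (hq : 1 < q)
    (X : ∀ ℓ, SemistableModel.{u, v} (Ω ℓ) Γ n q)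
    (lam : ∀ ℓ a, Module.End (Ω ℓ) ((X ℓ).H a))
    (hlam : ∀ ℓ (a : ℕ), IsDualLefschetz ((X ℓ).gr a) (n - a) ((X ℓ).lef a) (lam ℓ a))
    {A : Type} [Ring A] (C : Correspondences (fun ℓ => (X ℓ).toSpecialFibre) A)
    (hB : LefschetzStandard C lam) :
    (∃ (B : ℕ → ℤ → ℕ) (m : ℕ), ∀ ℓ, HasBounds (X ℓ) (lam ℓ) B m) ∧
    (∀ ℓ, StrongForm (X ℓ).toStrataData (lam ℓ) →
      AllPure (X ℓ) ∧ (X ℓ).toStrataData.HasHardLefschetz n) ∧
    ((∀ ℓ, NoTriplePoints (X ℓ).toStrataData → TripleLocusSplits (X ℓ).toStrataData (lam ℓ)) ∧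
      ∀ ℓ, TripleLocusSplits (X ℓ).toStrataData (lam ℓ) → AllPure (X ℓ) →
        (X ℓ).toStrataData.HasHardLefschetz n → StrongForm (X ℓ).toStrataData (lam ℓ)) ∧
    ∀ ℓ ℓ', TripleLocusSplits (X ℓ).toStrataData (lam ℓ) →
      TripleLocusSplits (X ℓ').toStrataData (lam ℓ') →
      (X ℓ).toStrataData.HasHardLefschetz n → (X ℓ').toStrataData.HasHardLefschetz n →
      bettiSum (X ℓ) = bettiSum (X ℓ') → (AllPure (X ℓ) ↔ AllPure (X ℓ')) := by
  obtain ⟨⟨P, hP⟩, hPd⟩ := exists_poly C hB
  choose R hR using hPd
  have hroot : ∀ (p : Polynomial ℚ) (ℓ : ι), (p.map (algebraMap ℚ (Ω ℓ))).rootMultiplicity 0 =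
      p.rootMultiplicity 0 := by
    intro p ℓ
    have := Polynomial.eq_rootMultiplicity_map (p := p)
      (f := algebraMap ℚ (Ω ℓ)) (algebraMap ℚ (Ω ℓ)).injective 0
    rw [map_zero] at this
    exact this.symm
  have hm : ∀ ℓ, (laplace (X ℓ).toStrataData (lam ℓ)).charpoly.rootMultiplicity 0 =
      P.rootMultiplicity 0 := fun ℓ => by
    have := hP ℓ
    rw [← hroot P ℓ, ← this]
  have h4 : ∀ ℓ, bettiSum (X ℓ) ≤ P.rootMultiplicity 0 ∧
      (bettiSum (X ℓ) = P.rootMultiplicity 0 ↔ StrongForm (X ℓ).toStrataData (lam ℓ)) := by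
    intro ℓ
    have := betti_le (X ℓ) (hlam ℓ)
    rwa [hm ℓ] at this
  have h2 := fun ℓ => pure_of_strong (X ℓ) (hlam ℓ)
  have h3 := fun ℓ => strong_of_pure (X ℓ) (hlam ℓ) hq
  refine ⟨⟨fun i w => (R ((i : ℤ) - w) ((i : ℤ) - n)).rootMultiplicity 0,
    P.rootMultiplicity 0, fun ℓ => ⟨?_, hm ℓ, h4 ℓ⟩⟩, h2,
    ⟨fun ℓ h => splits_of_noTriplePoints (X ℓ) h, h3⟩, ?_⟩
  · have h5 : ∀ (i : ℕ) (w : ℤ), (detect n ((i : ℤ) - w) ((i : ℤ) - n)
        (laplace (X ℓ).toStrataData (lam ℓ)) (H₁ (X ℓ).toSpecialFibre)
        (H₂ (X ℓ).toSpecialFibre (lam ℓ))).charpoly.rootMultiplicity 0 =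
        (R ((i : ℤ) - w) ((i : ℤ) - n)).rootMultiplicity 0 := by
      intro i w
      have := hR ((i : ℤ) - w) ((i : ℤ) - n) ℓ
      rw [← hroot _ ℓ, ← this]
    constructor
    · intro i w
      show gradedDim (X ℓ) i w ≤ (R ((i : ℤ) - w) ((i : ℤ) - n)).rootMultiplicity 0
      rw [← h5]
      exact graded_le (X ℓ) (hlam ℓ) i w
    · rw [← graded_iff (X ℓ) (hlam ℓ)]
      refine forall_congr' fun i => forall_congr' fun w => ?_
      show gradedDim (X ℓ) i w = (R ((i : ℤ) - w) ((i : ℤ) - n)).rootMultiplicity 0 ↔ _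
      rw [h5]
  · intro ℓ ℓ' hs hs' hL hL' hb
    constructor
    · intro hp
      have e1 := (h4 ℓ).2.2 (h3 ℓ hs hp hL)
      exact (h2 ℓ' ((h4 ℓ').2.1 (by rw [← hb, e1]))).1
    · intro hp
      have e1 := (h4 ℓ').2.2 (h3 ℓ' hs' hp hL')
      exact (h2 ℓ ((h4 ℓ).2.1 (by rw [hb, e1]))).1

end Pool.Agent.Results.MP_f8720a_ag.StrongForm
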